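import Pool.Agent.W829.RP.Defs

/-! RP-EFR: Efron's inequality for the expected number of vertices. -/

set_option autoImplicit false

open MeasureTheory Set Module
open scoped ENNReal
open Pool.Agent.W829.RP

namespace Pool.Agent.W828.RP

section Det

variable {V : Type} [NormedAddCommGroup V] [NormedSpace ℝ V]

/-- The indices whose points are outside the convex hull of the others. -/
def outer {n : ℕ} (ω : Fin (n + 1) → V) : Set (Fin (n + 1)) :=
  {i | ω i ∉ hull fun j : Fin n => ω (i.succAbove j)}

theorem mem_faces {n : ℕ} (ω : Fin (n + 1) → V) (i : Fin (n + 1)) (hi : i ∈ outer ω) :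
    {ω i} ∈ faces 0 (hull ω) := by
  have hcl : IsClosed (hull fun j : Fin n => ω (i.succAbove j)) :=
    ((Set.finite_range _).isCompact_convexHull (𝕜 := ℝ)).isClosed
  obtain ⟨f, u, hf1, hf2⟩ := geometric_hahn_banach_closed_point (convex_convexHull ℝ _) hcl hi
  have hT : Convex ℝ ({ω i} ∪ {x | f x < f (ω i)}) := by
    intro x hx y hy a b ha hb hab
    have hfx : f (a • x + b • y) = a * f x + b * f y := by
      rw [map_add, map_smul, map_smul, smul_eq_mul, smul_eq_mul]
    rcases hx with hx | hx
    · rw [Set.mem_singleton_iff] at hx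
      subst hx
      rcases hy with hy | hy
      · rw [Set.mem_singleton_iff] at hy
        subst hy
        left
        rw [← add_smul, hab, one_smul]
        rfl
      · rcases hb.eq_or_lt with hb0 | hb0
        · left
          have ha1 : a = 1 := by linarith
          rw [← hb0, ha1, one_smul, zero_smul, add_zero]
          rfl
        · right
          change f (a • ω i + b • y) < f (ω i)
          rw [hfx]
          have h3 : f y < f (ω i) := hy
          have h4 : b * f y < b * f (ω i) := mul_lt_mul_of_pos_left h3 hb0
          have h5 : f (ω i) = a * f (ω i) + b * f (ω i) := by rw [← add_mul, hab, one_mul]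
          linarith
    · rcases hy with hy | hy
      · rw [Set.mem_singleton_iff] at hy
        subst hy
        rcases ha.eq_or_lt with ha0 | ha0
        · left
          have hb1 : b = 1 := by linarith
          rw [← ha0, hb1, one_smul, zero_smul, zero_add]
          rfl
        · right
          change f (a • x + b • ω i) < f (ω i)
          rw [hfx]
          have h3 : f x < f (ω i) := hx
          have h4 : a * f x < a * f (ω i) := mul_lt_mul_of_pos_left h3 ha0
          have h5 : f (ω i) = a * f (ω i) + b * f (ω i) := by rw [← add_mul, hab, one_mul]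
          linarith
      · right
        change f (a • x + b • y) < f (ω i)
        rw [hfx]
        have h3 : f x < f (ω i) := hx
        have h3' : f y < f (ω i) := hy
        have h5 : f (ω i) = a * f (ω i) + b * f (ω i) := by rw [← add_mul, hab, one_mul]
        rcases ha.eq_or_lt with ha0 | ha0
        · have hb1 : b = 1 := by linarith
          rw [← ha0, hb1]
          linarith
        · have h4 : a * f x < a * f (ω i) := mul_lt_mul_of_pos_left h3 ha0
          have h6 : b * f y ≤ b * f (ω i) := mul_le_mul_of_nonneg_left h3'.le hb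
          linarith
  have hsub : hull ω ⊆ {ω i} ∪ {x | f x < f (ω i)} := by
    refine convexHull_min ?_ hT
    rintro x ⟨j, rfl⟩
    rcases eq_or_ne j i with h3 | h3
    · left
      rw [h3]
      rfl
    · right
      obtain ⟨k, rfl⟩ := Fin.exists_succAbove_eq h3
      have h4 : ω (i.succAbove k) ∈ hull fun j : Fin n => ω (i.succAbove j) :=
        subset_convexHull ℝ _ ⟨k, rfl⟩
      exact (hf1 _ h4).trans hf2
  have hmem : ω i ∈ hull ω := subset_convexHull ℝ _ ⟨i, rfl⟩
  refine ⟨Set.singleton_nonempty _, fun _ => ⟨f, ?_⟩, ?_⟩
  · ext x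
    simp only [Set.mem_singleton_iff, Set.mem_setOf_eq]
    constructor
    · rintro rfl
      refine ⟨hmem, fun y hy => ?_⟩
      rcases hsub hy with h3 | h3
      · rw [Set.mem_singleton_iff.mp h3]
      · exact le_of_lt h3
    · rintro ⟨hx, hx2⟩
      rcases hsub hx with h3 | h3
      · exact h3
      · exact absurd (hx2 _ hmem) (not_le.mpr h3)
  · rw [vectorSpan_singleton, finrank_bot]

theorem outer_le {n : ℕ} (ω : Fin (n + 1) → V) :
    (outer ω).encard ≤ (faces 0 (hull ω)).encard := by
  refine Set.encard_le_encard_of_injOn (f := fun i => {ω i}) (fun i hi => mem_faces ω i hi) ?_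
  intro i hi j hj hij
  by_contra hne
  have h1 : ω i = ω j := Set.singleton_injective hij
  obtain ⟨k, hk⟩ := Fin.exists_succAbove_eq (Ne.symm hne)
  apply hi
  rw [h1, ← hk]
  exact subset_convexHull ℝ _ ⟨k, rfl⟩

theorem sum_le {n : ℕ} (ω : Fin (n + 1) → V) :
    ∑ i : Fin (n + 1), ({ω : Fin (n + 1) → V | i ∈ outer ω}).indicator (fun _ => (1 : ℝ≥0∞)) ω ≤
      ((faces 0 (hull ω)).encard : ℝ≥0∞) := by
  classical
  refine le_trans ?_ (ENat.toENNReal_le.mpr (outer_le ω))
  have h1 : (outer ω).encard = ((Finset.univ.filter fun i => i ∈ outer ω).card : ℕ∞) := by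
    rw [← Set.encard_coe_eq_coe_finsetCard]
    congr 1
    ext i
    simp
  rw [h1, ENat.toENNReal_coe, Finset.card_filter, Nat.cast_sum]
  apply le_of_eq
  refine Finset.sum_congr rfl fun i _ => ?_
  by_cases h : i ∈ outer ω
  · simp [Set.indicator, h]
  · simp [Set.indicator, h]

end Det

theorem efr (hc : S_HC) : S_EFR := by
  intro V _ _ _ _ _ _ K hK n
  have hK0 : volume K ≠ 0 := by
    have h1 : 0 < volume (interior K) := isOpen_interior.measure_pos volume hK.2.2
    exact (h1.trans_le (measure_mono interior_subset)).ne'
  have hKt : volume K ≠ ⊤ := hK.2.1.measure_lt_top.ne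
  haveI hprob : IsProbabilityMeasure (unif K) := by
    constructor
    rw [unif, Measure.smul_apply, Measure.restrict_apply_univ, smul_eq_mul,
      ENNReal.inv_mul_cancel hK0 hKt]
  set C : Set (V × (Fin n → V)) := {p | p.1 ∉ hull p.2} with hC
  have hCm : MeasurableSet C := (hc V n).isOpen_compl.measurableSet
  have hval : (unif K).prod (samp K n) C = miss K n / volume K := by
    haveI : SFinite (samp K n) := by
      unfold samp
      infer_instance
    rw [Measure.prod_apply_symm hCm]
    have h1 : ∀ ω : Fin n → V, unif K ((fun x => (x, ω)) ⁻¹' C) =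
        (volume K)⁻¹ * volume (K \ hull ω) := by
      intro ω
      have hm : MeasurableSet (hull ω) :=
        (((Set.finite_range ω).isCompact_convexHull (𝕜 := ℝ)).isClosed).measurableSet
      have h2 : ((fun x => (x, ω)) ⁻¹' C) = (hull ω)ᶜ := by
        ext x
        simp [hC]
      rw [h2, unif, Measure.smul_apply, Measure.restrict_apply hm.compl, smul_eq_mul,
        Set.inter_comm, ← Set.diff_eq]
    simp_rw [h1]
    rw [lintegral_const_mul' _ _ (ENNReal.inv_ne_top.mpr hK0), miss, ENNReal.div_eq_inv_mul]
  have hi : ∀ i : Fin (n + 1), samp K (n + 1) {ω : Fin (n + 1) → V | i ∈ outer ω} =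
      miss K n / volume K := by
    intro i
    have h1 := measurePreserving_piFinSuccAbove (fun _ : Fin (n + 1) => unif K) i
    rw [← hval]
    have h2 := h1.measure_preimage hCm.nullMeasurableSet
    exact h2
  have hmeas : ∀ i : Fin (n + 1), MeasurableSet {ω : Fin (n + 1) → V | i ∈ outer ω} := by
    intro i
    have h1 := (MeasurableEquiv.piFinSuccAbove (fun _ : Fin (n + 1) => V) i).measurable hCm
    exact h1
  calc ((n : ℝ≥0∞) + 1) * (miss K n / volume K)
      = ∑ i : Fin (n + 1), samp K (n + 1) {ω : Fin (n + 1) → V | i ∈ outer ω} := by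
        simp_rw [hi]
        rw [Finset.sum_const, Finset.card_univ, Fintype.card_fin, nsmul_eq_mul]
        push_cast
        rfl
    _ = ∫⁻ ω, ∑ i : Fin (n + 1),
          ({ω : Fin (n + 1) → V | i ∈ outer ω}).indicator (fun _ => (1 : ℝ≥0∞)) ω
            ∂(samp K (n + 1)) := by
        rw [lintegral_finset_sum]
        · refine Finset.sum_congr rfl fun i _ => ?_
          rw [lintegral_indicator (hmeas i), setLIntegral_const, one_mul]
        · intro i _
          exact measurable_const.indicator (hmeas i)
    _ ≤ meanFaces K (n + 1) 0 := lintegral_mono fun ω => sum_le ω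

end Pool.Agent.W828.RP
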